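import Mathlib

namespace Pool.Agent.Results.MP_6d87e8_lc.Deletion

universe u

/-- `L ↠ K`: there is a weakly order-preserving surjection from `L` onto `K`. -/
def Onto (L K : Type u) [LinearOrder L] [LinearOrder K] : Prop :=
  ∃ f : L → K, Monotone f ∧ Function.Surjective f

/-- `L` maps onto each of its nonempty suborders. -/
def StronglySurjective (L : Type u) [LinearOrder L] : Prop :=
  ∀ K : Set L, K.Nonempty → Onto L K

open Set

section
variable {L : Type u} [LinearOrder L]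

theorem retract_finite (K : Set L) (hK : K.Finite) (hne : K.Nonempty) :
    ∃ g : L → L, Monotone g ∧ (∀ y, g y ∈ K) ∧ ∀ y ∈ K, g y = y := by
  classical
  obtain ⟨m, hm, hmin⟩ := Set.exists_min_image K id hK hne
  have : ∀ y : L, ∃ w, w ∈ K ∧ (∀ k ∈ K, k ≤ y → k ≤ w) ∧ (w ≤ y ∨ w = m) := by
    intro y
    by_cases h : (K ∩ Iic y).Nonempty
    · obtain ⟨w, hw, hmax⟩ := Set.exists_max_image _ id (hK.inter_of_left _) h
      exact ⟨w, hw.1, fun k hk hky => hmax k ⟨hk, hky⟩, Or.inl hw.2⟩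
    · exact ⟨m, hm, fun k hk hky => absurd ⟨k, hk, hky⟩ h, Or.inr rfl⟩
  choose g h1 h2 h3 using this
  refine ⟨g, fun y z hyz => ?_, h1, fun y hy => ?_⟩
  · rcases h3 y with h | h
    · exact h2 z _ (h1 y) (h.trans hyz)
    · rw [h]; exact hmin _ (h1 z)
  · refine le_antisymm ?_ (h2 y y hy le_rfl)
    rcases h3 y with h | h
    · exact h
    · rw [h]; exact hmin _ hy

theorem shift (x : L) : ∃ g : L → L, MonotoneOn g {x}ᶜ ∧
    ∀ y, (¬ (x ≤ y ∧ {w | x ≤ w ∧ w < y}.Finite) ∨ ∃ z, y < z ∧ {w | x ≤ w ∧ w < z}.Finite) →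
      y ∈ g '' {x}ᶜ := by
  have : ∀ z : L, ∃ p, ((x < z ∧ {w | x ≤ w ∧ w < z}.Finite) →
      x ≤ p ∧ p < z ∧ ∀ w, x ≤ w → w < z → w ≤ p) ∧
      (¬ (x < z ∧ {w | x ≤ w ∧ w < z}.Finite) → p = z) := by
    intro z
    by_cases h : x < z ∧ {w | x ≤ w ∧ w < z}.Finite
    · obtain ⟨p, hp, hmax⟩ := Set.exists_max_image _ id h.2 ⟨x, le_rfl, h.1⟩
      exact ⟨p, fun _ => ⟨hp.1, hp.2, fun w h1 h2 => hmax w ⟨h1, h2⟩⟩, fun h' => absurd h h'⟩
    · exact ⟨z, fun h' => absurd h' h, fun _ => rfl⟩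
  choose g h1 h2 using this
  refine ⟨g, fun z hz z' _ hzz => ?_, fun y hy => ?_⟩
  · by_cases a : x < z ∧ {w | x ≤ w ∧ w < z}.Finite
    · by_cases b : x < z' ∧ {w | x ≤ w ∧ w < z'}.Finite
      · exact (h1 z' b).2.2 _ (h1 z a).1 ((h1 z a).2.1.trans_le hzz)
      · rw [h2 z' b]; exact (h1 z a).2.1.le.trans hzz
    · rw [h2 z a]
      by_cases b : x < z' ∧ {w | x ≤ w ∧ w < z'}.Finite
      · rcases lt_or_gt_of_ne (show z ≠ x from hz) with h | h
        · exact h.le.trans (h1 z' b).1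
        · exact absurd ⟨h, b.2.subset fun w hw => ⟨hw.1, hw.2.trans_le hzz⟩⟩ a
      · rw [h2 z' b]; exact hzz
  · by_cases a : x ≤ y ∧ {w | x ≤ w ∧ w < y}.Finite
    · obtain ⟨z, hyz, hz⟩ := hy.resolve_left (not_not.2 a)
      have hfin : {w | y < w ∧ w ≤ z}.Finite := by
        refine (hz.insert z).subset fun w hw => ?_
        rcases hw.2.eq_or_lt with h | h
        · exact Or.inl h
        · exact Or.inr ⟨a.1.trans hw.1.le, h⟩
      obtain ⟨w, hw, hmin⟩ := Set.exists_min_image _ id hfin ⟨z, hyz, le_rfl⟩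
      have b : x < w ∧ {v | x ≤ v ∧ v < w}.Finite :=
        ⟨a.1.trans_lt hw.1, hz.subset fun v hv => ⟨hv.1, hv.2.trans_le hw.2⟩⟩
      refine ⟨w, b.1.ne', le_antisymm ?_ ((h1 w b).2.2 y a.1 hw.1)⟩
      by_contra hc
      have := hmin (g w) ⟨not_le.1 hc, (h1 w b).2.1.le.trans hw.2⟩
      exact absurd (h1 w b).2.1 (not_lt.2 this)
    · refine ⟨y, ?_, h2 y fun b => a ⟨b.1.le, b.2⟩⟩
      rintro rfl
      refine a ⟨le_rfl, Set.finite_empty.subset fun w hw => absurd hw.2 (not_lt.2 hw.1)⟩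

/-- `L \ {x}` maps onto `L`. -/
def Good (x : L) : Prop := ∃ g : L → L, MonotoneOn g {x}ᶜ ∧ ∀ y, y ∈ g '' {x}ᶜ

theorem up (x : L) : Good x ∨ ∃ c, x ≤ c ∧ {w | x ≤ w ∧ w < c}.Finite ∧
    (∀ z, c < z → {w | x ≤ w ∧ w < z}.Infinite) ∧
    ∀ (f : L → L) (b : L), Monotone f → c < b → f b ≤ c → (∀ y, c < y → y ∈ range f) →
      Good x := by
  obtain ⟨g, hg, hs⟩ := shift x
  by_cases h : ∃ c, x ≤ c ∧ {w | x ≤ w ∧ w < c}.Finite ∧
    ∀ z, c < z → {w | x ≤ w ∧ w < z}.Infinite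
  · obtain ⟨c, h1, h2, h3⟩ := h
    refine Or.inr ⟨c, h1, h2, h3, fun f b hf hb hfb hr => ?_⟩
    have hsurj : ∀ y, y ≠ c → y ∈ g '' {x}ᶜ := by
      intro y hy
      refine hs y ?_
      rcases lt_or_gt_of_ne hy with h | h
      · exact Or.inr ⟨c, h, h2⟩
      · exact Or.inl fun h' => h3 y h h'.2
    let k : L → L := fun z => if z ≤ c then z else max c (f z)
    have hk : Monotone k := by
      intro z z' hzz
      simp only [k]
      split_ifs with a a' a'
      · exact hzz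
      · exact a.trans (le_max_left _ _)
      · exact absurd (hzz.trans a') a
      · exact max_le_max le_rfl (hf hzz)
    refine ⟨k ∘ g, hk.comp_monotoneOn hg, fun y => ?_⟩
    have : ∃ z, z ≠ c ∧ k z = y := by
      rcases lt_trichotomy y c with h | h | h
      · exact ⟨y, h.ne, by simp [k, h.le]⟩
      · exact ⟨b, hb.ne', by simp [k, not_le.2 hb, hfb, h]⟩
      · obtain ⟨z, rfl⟩ := hr y h
        have hz : c < z := hb.trans (hf.reflect_lt (hfb.trans_lt h))
        exact ⟨z, hz.ne', by simp [k, not_le.2 hz, h.le]⟩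
    obtain ⟨z, hz, rfl⟩ := this
    obtain ⟨w, hw, rfl⟩ := hsurj z hz
    exact ⟨w, hw, rfl⟩
  · refine Or.inl ⟨g, hg, fun y => hs y ?_⟩
    by_contra hc
    push Not at hc
    exact h ⟨y, hc.1.1, hc.1.2, hc.2⟩

theorem down (x : L) : Good x ∨ ∃ c, c ≤ x ∧ {w | w ≤ x ∧ c < w}.Finite ∧
    (∀ z, z < c → {w | w ≤ x ∧ z < w}.Infinite) ∧
    ∀ (f : L → L) (b : L), Monotone f → b < c → c ≤ f b → (∀ y, y < c → y ∈ range f) →
      Good x := by
  have conv : Good (L := Lᵒᵈ) x → Good x := by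
    rintro ⟨g, h1, h2⟩
    exact ⟨g, fun a ha b hb hab => h1 hb ha hab, h2⟩
  rcases up (L := Lᵒᵈ) x with h | ⟨c, h1, h2, h3, h4⟩
  · exact Or.inl (conv h)
  · exact Or.inr ⟨c, h1, h2, h3, fun f b hf hb hfb hr =>
      conv (h4 f b (fun _ _ hab => hf hab) hb hfb hr)⟩

theorem good [Infinite L] (h : StronglySurjective L) (x : L) : Good x := by
  rcases up x with h0 | ⟨c, hc1, hc2, hc3, hc4⟩
  · exact h0
  rcases down x with h0 | ⟨d, hd1, hd2, hd3, hd4⟩
  · exact h0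
  have hfin : (Icc d c).Finite := by
    refine (((hc2.union hd2).insert c).insert d).subset fun w hw => ?_
    rcases hw.1.eq_or_lt with a | a
    · exact Or.inl a.symm
    rcases hw.2.eq_or_lt with b | b
    · exact Or.inr (Or.inl b)
    rcases le_total x w with e | e
    · exact Or.inr (Or.inr (Or.inl ⟨e, b⟩))
    · exact Or.inr (Or.inr (Or.inr ⟨e, a⟩))
  obtain ⟨f0, hf0, hs⟩ := h (Icc d c)ᶜ hfin.infinite_compl.nonempty
  let f : L → L := fun z => (f0 z).1
  have hf : Monotone f := fun a b hab => hf0 hab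
  have hr : ∀ y, (y < d ∨ c < y) → y ∈ range f := by
    intro y hy
    obtain ⟨z, hz⟩ := hs ⟨y, fun h => by
      rcases hy with hy | hy
      · exact absurd h.1 (not_le.2 hy)
      · exact absurd h.2 (not_le.2 hy)⟩
    exact ⟨z, congrArg Subtype.val hz⟩
  by_cases a : ∃ b, c < b ∧ f b ≤ c
  · obtain ⟨b, hb, hfb⟩ := a
    exact hc4 f b hf hb hfb fun y hy => hr y (Or.inr hy)
  by_cases a' : ∃ b, b < d ∧ d ≤ f b
  · obtain ⟨b, hb, hfb⟩ := a'
    exact hd4 f b hf hb hfb fun y hy => hr y (Or.inl hy)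
  push Not at a a'
  exfalso
  have hx : f x < d ∨ c < f x := by
    have : f x ∉ Icc d c := (f0 x).2
    by_contra hc
    push Not at hc
    exact this hc
  rcases hx with hx | hx
  · refine hd3 _ hx ((hfin.union (hfin.image f)).subset fun w hw => ?_)
    rcases le_or_gt d w with e | e
    · exact Or.inl ⟨e, hw.1.trans hc1⟩
    · obtain ⟨z, rfl⟩ := hr w (Or.inl e)
      refine Or.inr ⟨z, ⟨hd1.trans (hf.reflect_lt hw.2).le, ?_⟩, rfl⟩
      by_contra hz
      exact absurd ((a z (not_le.1 hz)).trans e) (not_lt.2 (hd1.trans hc1))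
  · refine hc3 _ hx ((hfin.union (hfin.image f)).subset fun w hw => ?_)
    rcases le_or_gt w c with e | e
    · exact Or.inl ⟨hd1.trans hw.1, e⟩
    · obtain ⟨z, rfl⟩ := hr w (Or.inr e)
      refine Or.inr ⟨z, ⟨?_, (hf.reflect_lt hw.2).le.trans hc1⟩, rfl⟩
      by_contra hz
      exact absurd (e.trans (a' z (not_le.1 hz))) (not_lt.2 (hd1.trans hc1))

end

/-- Deleting a point from a strongly surjective linear order leaves a strongly surjective
linear order. -/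
theorem result : ∀ (L : Type u) [LinearOrder L], StronglySurjective L →
    ∀ x : L, StronglySurjective ({x}ᶜ : Set L) := by
  intro L _ h x K hK
  rcases finite_or_infinite L with hL | hL
  · obtain ⟨g, h1, h2, h3⟩ := retract_finite K (Set.toFinite K) hK
    exact ⟨fun y => ⟨g y, h2 y⟩, fun a b hab => h1 hab, fun y => ⟨y.1, Subtype.ext (h3 _ y.2)⟩⟩
  · obtain ⟨g, hg1, hg2⟩ := good h x
    obtain ⟨f, hf1, hf2⟩ := h (Subtype.val '' K) (hK.image _)
    have : ∀ z : (Subtype.val '' K : Set L), ∃ w : K, w.1.1 = z.1 := by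
      rintro ⟨_, w, hw, rfl⟩
      exact ⟨⟨w, hw⟩, rfl⟩
    choose e he using this
    refine ⟨fun y => e (f (g y.1)), fun a b hab => ?_, fun w => ?_⟩
    · show (e (f (g a.1))).1.1 ≤ (e (f (g b.1))).1.1
      rw [he, he]
      exact hf1 (hg1 a.2 b.2 hab)
    · obtain ⟨z, hz⟩ := hf2 ⟨w.1.1, w.1, w.2, rfl⟩
      obtain ⟨y, hy, rfl⟩ := hg2 z
      refine ⟨⟨y, hy⟩, Subtype.ext (Subtype.ext ?_)⟩
      rw [he, hz]

end Pool.Agent.Results.MP_6d87e8_lc.Deletion
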